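import Mathlib
import Pool.Agent.Results.MP_e563b5_al.IntermediateRatio

set_option autoImplicit false

/-!
The group generated by the first Grigorchuk group (acting on its orbit, the natural numbers) and one
transposition has subexponential growth.
-/

open Pool.Agent.Results.MP_e563b5_al.IntermediateRatio

namespace Pool.Agent.H425R3.AG

/-- the transposition -/
def τ : Equiv.Perm ℕ := Equiv.swap 0 1

/-- generators of the big group (with the identity) -/
def IsGen (s : Equiv.Perm ℕ) : Prop := s = aP ∨ (∃ x, s = kP x) ∨ s = τ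

/-- products of `n` generators -/
inductive V : ℕ → Equiv.Perm ℕ → Prop
  | one : V 0 1
  | mul (n : ℕ) (g s : Equiv.Perm ℕ) : V n g → IsGen s → V (n + 1) (g * s)

theorem V_state {n : ℕ} {g : Equiv.Perm ℕ} (h : V n g) :
    ∃ r ≤ 6 * n, ∃ (q : Equiv.Perm ℕ) (O : Finset ℕ) (σ : Equiv.Perm ℕ),
      P r q O ∧ g = σ * q ∧ ∀ x, x ∉ O → σ x = x := by
  induction h with
  | one => exact ⟨0, by omega, 1, {0}, 1, P.one, by simp, by simp⟩
  | mul n g s _ hs ih =>
    obtain ⟨r, hr, q, O, σ, hP, hg, hσ⟩ := ih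
    rcases hs with rfl | ⟨x, rfl⟩ | rfl
    · refine ⟨r + 3, by omega, q * aP, insert (q 1) O, σ, P.astep _ _ _ hP, ?_, ?_⟩
      · rw [hg, mul_assoc]
      · intro x hx
        exact hσ x (fun h => hx (Finset.mem_insert_of_mem h))
    · refine ⟨r + K4.wt x, ?_, q * kP x, O, σ, P.kstep _ _ _ x hP, ?_, hσ⟩
      · have : K4.wt x ≤ 3 := by cases x <;> decide
        omega
      · rw [hg, mul_assoc]
    · have hP1 := P.astep _ _ _ (P.astep _ _ _ hP)
      rw [mul_assoc, aP_aP, mul_one] at hP1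
      refine ⟨r + 3 + 3, by omega, q, _, σ * Equiv.swap (q 0) (q 1), hP1, ?_, ?_⟩
      · have h1 : q * τ = Equiv.swap (q 0) (q 1) * q := by
          rw [τ, Equiv.mul_swap_eq_swap_mul]
        rw [hg, mul_assoc, h1, mul_assoc]
      · intro x hx
        have h0 : x ≠ q 0 := by
          rintro rfl
          exact hx (Finset.mem_insert_of_mem (Finset.mem_insert_of_mem hP.mem))
        have h1 : x ≠ q 1 := by
          rintro rfl
          exact hx (Finset.mem_insert_of_mem (Finset.mem_insert_self _ _))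
        rw [Equiv.Perm.mul_apply, Equiv.swap_apply_of_ne_of_ne h0 h1]
        exact hσ x (fun h => hx (Finset.mem_insert_of_mem (Finset.mem_insert_of_mem h)))

theorem sites_pow (i : ℕ) : ∀ r g O, P r g O →
    (O.card : ℝ) ≤ (5 / 6 : ℝ) ^ i * r + (4 * 2 ^ i - 5 / 2) := by
  induction i with
  | zero =>
    intro r g O hP
    have : O.card ≤ r + 1 := by
      induction hP with
      | one => simp
      | kstep r g O x h ih => omega
      | astep r g O h ih =>
        have := Finset.card_insert_le (g 1) O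
        omega
    have h' : (O.card : ℝ) ≤ r + 1 := by exact_mod_cast this
    simp only [pow_zero, one_mul]
    linarith
  | succ i ih =>
    intro r g O hP
    obtain ⟨r', hr', hAl⟩ := hP.alt
    have hr'' : (r' : ℝ) ≤ r := by exact_mod_cast hr'
    have h2i : (1 : ℝ) ≤ 2 ^ i := one_le_pow₀ (by norm_num)
    rcases hAl.decomp with ⟨x, hx, hO, _⟩ |
      ⟨s, σ, τ, rE, rO, hE, hO, OE, OO, hPE, hPO, hw, hO', hg⟩
    · rw [hO]
      simp only [Finset.card_singleton, Nat.cast_one]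
      have h0 : 0 ≤ (5 / 6 : ℝ) ^ (i + 1) * r := by positivity
      rw [pow_succ (2 : ℝ)]
      linarith
    · rw [hO', card_dbl]
      have h1 := ih _ _ _ hPE
      have h2 := ih _ _ _ hPO
      have h3 : 6 * ((rE : ℝ) + rO) ≤ 5 * (r' + 3) := by
        have : 6 * (rE + rO) ≤ 5 * (r' + 3) := by split_ifs at hw <;> omega
        exact_mod_cast this
      have hA0 : (0 : ℝ) ≤ (5 / 6 : ℝ) ^ i := by positivity
      have hA1 : (5 / 6 : ℝ) ^ i ≤ 1 := pow_le_one₀ (by norm_num) (by norm_num)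
      have h4 : (5 / 6 : ℝ) ^ i * ((rE : ℝ) + rO) ≤ (5 / 6 : ℝ) ^ i * (5 / 6 * (r + 3)) := by
        apply mul_le_mul_of_nonneg_left _ hA0
        linarith
      push_cast
      rw [pow_succ, pow_succ]
      nlinarith

/-- power saving in the number of sites -/
theorem sites_j (j r : ℕ) (g : Equiv.Perm ℕ) (O : Finset ℕ) (hP : P r g O) (hr : r ≤ 2 ^ (8 * j)) :
    O.card ≤ 5 * 2 ^ (7 * j) := by
  have h1 := sites_pow (4 * j) r g O hP
  have h2 : (5 / 6 : ℝ) ^ (4 * j) ≤ (1 / 2) ^ j := by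
    rw [pow_mul]
    apply pow_le_pow_left₀ (by positivity)
    norm_num
  have h3 : (r : ℝ) ≤ 2 ^ (8 * j) := by exact_mod_cast hr
  have h4 : (5 / 6 : ℝ) ^ (4 * j) * r ≤ (1 / 2) ^ j * 2 ^ (8 * j) :=
    mul_le_mul h2 h3 (Nat.cast_nonneg _) (by positivity)
  have h5 : (1 / 2 : ℝ) ^ j * 2 ^ (8 * j) = 2 ^ (7 * j) := by
    rw [show 8 * j = j + 7 * j by ring, pow_add, ← mul_assoc, ← mul_pow]
    norm_num
  have h6 : (2 : ℝ) ^ (4 * j) ≤ 2 ^ (7 * j) := pow_le_pow_right₀ (by norm_num) (by omega)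
  have h7 : (O.card : ℝ) ≤ 5 * 2 ^ (7 * j) := by linarith
  exact_mod_cast h7

/-- permutations supported in `Y` -/
theorem card_supp (Y : Finset ℕ) :
    {σ : Equiv.Perm ℕ | ∀ x, x ∉ Y → σ x = x}.Finite ∧
    {σ : Equiv.Perm ℕ | ∀ x, x ∉ Y → σ x = x}.ncard = Y.card.factorial := by
  have e : {f : Equiv.Perm ℕ // ∀ a, ¬ (a ∈ Y) → f a = a} ≃ Equiv.Perm {x // x ∈ Y} :=
    (Equiv.Perm.subtypeEquivSubtypePerm (fun x => x ∈ Y)).symm
  have hfin : Finite {f : Equiv.Perm ℕ // ∀ a, ¬ (a ∈ Y) → f a = a} := Finite.of_equiv _ e.symm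
  refine ⟨Set.finite_coe_iff.mp hfin, ?_⟩
  have h1 : {σ : Equiv.Perm ℕ | ∀ x, x ∉ Y → σ x = x}.ncard =
      Nat.card {f : Equiv.Perm ℕ // ∀ a, ¬ (a ∈ Y) → f a = a} := rfl
  rw [h1, Nat.card_congr e, Nat.card_eq_fintype_card, Fintype.card_perm]
  simp

/-- the values of words of length at most `n` -/
def VB (n : ℕ) : Set (Equiv.Perm ℕ) := {g | V n g}

theorem VB_bound (n j : ℕ) (hj : 6 * n ≤ 2 ^ (8 * j)) :
    (VB n).Finite ∧ (VB n).ncard ≤ (RF (6 * n)).card * (5 * 2 ^ (7 * j)).factorial := by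
  classical
  set K := (RF (6 * n)).filter (fun p => p.1.card ≤ 5 * 2 ^ (7 * j)) with hK
  have hsub : VB n ⊆ ⋃ p ∈ K, (fun σ => σ * p.2) '' {σ : Equiv.Perm ℕ | ∀ x, x ∉ p.1 → σ x = x} := by
    intro g hg
    obtain ⟨r, hr, q, O, σ, hP, rfl, hσ⟩ := V_state hg
    rw [Set.mem_iUnion₂]
    refine ⟨(O, q), ?_, σ, hσ, rfl⟩
    rw [hK, Finset.mem_filter, mem_RF]
    exact ⟨⟨r, hr, O, subset_rfl, hP⟩, sites_j j r q O hP (hr.trans hj)⟩
  have hfin : (⋃ p ∈ K, (fun σ => σ * p.2) '' {σ : Equiv.Perm ℕ | ∀ x, x ∉ p.1 → σ x = x}).Finite := by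
    refine Set.Finite.biUnion K.finite_toSet (fun p _ => ?_)
    exact (card_supp p.1).1.image _
  refine ⟨hfin.subset hsub, ?_⟩
  refine (Set.ncard_le_ncard hsub hfin).trans ?_
  have h1 : ∀ K : Finset (Finset ℕ × Equiv.Perm ℕ), (∀ p ∈ K, p.1.card ≤ 5 * 2 ^ (7 * j)) →
      (⋃ p ∈ K, (fun σ => σ * p.2) ''
        {σ : Equiv.Perm ℕ | ∀ x, x ∉ p.1 → σ x = x}).ncard ≤
        K.card * (5 * 2 ^ (7 * j)).factorial := by
    intro K
    induction K using Finset.induction_on with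
    | empty => intro _; simp
    | insert p K hp ih =>
      intro hc
      rw [Finset.set_biUnion_insert, Finset.card_insert_of_notMem hp]
      refine (Set.ncard_union_le _ _).trans ?_
      have h2 := ih (fun q hq => hc q (Finset.mem_insert_of_mem hq))
      have h3 : ((fun σ => σ * p.2) '' {σ : Equiv.Perm ℕ | ∀ x, x ∉ p.1 → σ x = x}).ncard ≤
          (5 * 2 ^ (7 * j)).factorial := by
        refine (Set.ncard_image_le (card_supp p.1).1).trans ?_
        rw [(card_supp p.1).2]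
        exact Nat.factorial_le (hc p (Finset.mem_insert_self _ _))
      rw [add_mul, one_mul]
      omega
  refine (h1 K (fun p hp => (Finset.mem_filter.mp hp).2)).trans ?_
  exact Nat.mul_le_mul_right _ (Finset.card_le_card (Finset.filter_subset _ _))

/-- the factorial is subexponential -/
theorem fact_sub (ε : ℝ) (hε : 0 < ε) : ∃ A : ℝ, ∀ n : ℕ, ∃ j : ℕ, 6 * n ≤ 2 ^ (8 * j) ∧
    (((5 * 2 ^ (7 * j)).factorial : ℕ) : ℝ) ≤ A * Real.exp (ε * n) := by
  -- for large j the factorial is small compared with exp (ε 2^(8j) / 1536)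
  have hev : ∃ j0 : ℕ, ∀ j : ℕ, j0 ≤ j →
      (5 * (2 : ℝ) ^ (7 * j)) * ((7 * j + 3) * Real.log 2) ≤ ε / 1536 * 2 ^ (8 * j) := by
    have h1 : Filter.Tendsto (fun j : ℕ => (7 * (j : ℝ) + 3) / 2 ^ j) Filter.atTop (nhds 0) := by
      have h2 : Filter.Tendsto (fun j : ℕ => (j : ℝ) / 2 ^ j) Filter.atTop (nhds 0) := by
        have := tendsto_pow_const_div_const_pow_of_one_lt 1 (show (1 : ℝ) < 2 by norm_num)
        simpa using this
      have h3 : Filter.Tendsto (fun j : ℕ => (1 : ℝ) / 2 ^ j) Filter.atTop (nhds 0) := by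
        have := tendsto_pow_atTop_nhds_zero_of_lt_one (show (0 : ℝ) ≤ 1 / 2 by norm_num)
          (by norm_num)
        refine this.congr (fun j => ?_)
        rw [one_div_pow]
      have h4 := (h2.const_mul 7).add (h3.const_mul 3)
      simp only [mul_zero, add_zero] at h4
      refine h4.congr (fun j => ?_)
      ring
    have hc : 0 < ε / (1536 * 5 * Real.log 2) := by
      have := Real.log_pos (show (1 : ℝ) < 2 by norm_num)
      positivity
    have h5 := h1.eventually (gt_mem_nhds hc)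
    rw [Filter.eventually_atTop] at h5
    obtain ⟨j0, hj0⟩ := h5
    refine ⟨j0, fun j hj => ?_⟩
    have h6 := hj0 j hj
    have hlog := Real.log_pos (show (1 : ℝ) < 2 by norm_num)
    rw [div_lt_div_iff₀ (by positivity) (by positivity)] at h6
    have h7 : (2 : ℝ) ^ (8 * j) = 2 ^ (7 * j) * 2 ^ j := by
      rw [← pow_add]; congr 1; ring
    rw [h7]
    have h8 : (0 : ℝ) < 2 ^ (7 * j) := by positivity
    have h9 : 5 * ((7 * j + 3) * Real.log 2) ≤ ε / 1536 * 2 ^ j := by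
      have : (7 * (j : ℝ) + 3) * (1536 * 5 * Real.log 2) ≤ ε * 2 ^ j := h6.le
      linarith
    calc (5 * (2 : ℝ) ^ (7 * j)) * ((7 * j + 3) * Real.log 2)
        = 2 ^ (7 * j) * (5 * ((7 * j + 3) * Real.log 2)) := by ring
      _ ≤ 2 ^ (7 * j) * (ε / 1536 * 2 ^ j) := mul_le_mul_of_nonneg_left h9 h8.le
      _ = _ := by ring
  obtain ⟨j0, hj0⟩ := hev
  refine ⟨max 1 (((5 * 2 ^ (7 * j0)).factorial : ℕ) : ℝ), fun n => ?_⟩
  by_cases hsmall : 6 * n ≤ 2 ^ (8 * j0)
  · refine ⟨j0, hsmall, ?_⟩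
    have h1 : (1 : ℝ) ≤ Real.exp (ε * n) := Real.one_le_exp (by positivity)
    have h2 := le_max_right (1 : ℝ) (((5 * 2 ^ (7 * j0)).factorial : ℕ) : ℝ)
    have h3 : (0 : ℝ) ≤ max 1 (((5 * 2 ^ (7 * j0)).factorial : ℕ) : ℝ) := by positivity
    calc (((5 * 2 ^ (7 * j0)).factorial : ℕ) : ℝ)
        ≤ max 1 (((5 * 2 ^ (7 * j0)).factorial : ℕ) : ℝ) * 1 := by rw [mul_one]; exact h2
      _ ≤ _ := mul_le_mul_of_nonneg_left h1 h3
  · push Not at hsmall
    have hn0 : 6 * n ≠ 0 := by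
      have : 0 < 2 ^ (8 * j0) := by positivity
      omega
    set j := Nat.log 2 (6 * n) / 8 + 1 with hj
    have h1 : 6 * n < 2 ^ (8 * j) := Nat.lt_pow_of_log_lt (by norm_num) (by omega)
    have h2 : 2 ^ (8 * (j - 1)) ≤ 6 * n := Nat.pow_le_of_le_log hn0 (by omega)
    have hjj : j0 ≤ j := by
      by_contra hcon
      push Not at hcon
      have : 2 ^ (8 * j) ≤ 2 ^ (8 * j0) := Nat.pow_le_pow_right (by norm_num) (by omega)
      omega
    refine ⟨j, h1.le, ?_⟩
    have h3 : (2 : ℝ) ^ (8 * j) ≤ 1536 * n := by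
      have h4 : 2 ^ (8 * j) = 256 * 2 ^ (8 * (j - 1)) := by
        rw [show 8 * j = 8 + 8 * (j - 1) by omega, pow_add]
        norm_num
      have h5 : 2 ^ (8 * j) ≤ 1536 * n := by
        rw [h4]; omega
      exact_mod_cast h5
    have h4 : (((5 * 2 ^ (7 * j)).factorial : ℕ) : ℝ) ≤
        Real.exp ((5 * (2 : ℝ) ^ (7 * j)) * ((7 * j + 3) * Real.log 2)) := by
      have h5 : (5 * 2 ^ (7 * j)).factorial ≤ (5 * 2 ^ (7 * j)) ^ (5 * 2 ^ (7 * j)) :=
        Nat.factorial_le_pow _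
      have h6 : (5 * 2 ^ (7 * j)) ^ (5 * 2 ^ (7 * j)) ≤ (2 ^ (7 * j + 3)) ^ (5 * 2 ^ (7 * j)) := by
        apply Nat.pow_le_pow_left
        rw [pow_add]
        omega
      have h7 : (((5 * 2 ^ (7 * j)).factorial : ℕ) : ℝ) ≤
          ((2 : ℝ) ^ (7 * j + 3)) ^ (5 * 2 ^ (7 * j)) := by exact_mod_cast h5.trans h6
      refine h7.trans (le_of_eq ?_)
      rw [← pow_mul]
      have h8 : (2 : ℝ) ^ ((7 * j + 3) * (5 * 2 ^ (7 * j))) =
          Real.exp (((7 * j + 3) * (5 * 2 ^ (7 * j)) : ℕ) * Real.log 2) := by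
        rw [Real.exp_nat_mul, Real.exp_log (by norm_num)]
      rw [h8]
      congr 1
      push_cast
      ring
    have h5 := hj0 j hjj
    have h6 : ε / 1536 * 2 ^ (8 * j) ≤ ε * n := by
      have := mul_le_mul_of_nonneg_left h3 (show 0 ≤ ε / 1536 by positivity)
      linarith
    calc (((5 * 2 ^ (7 * j)).factorial : ℕ) : ℝ) ≤ Real.exp (ε * n) :=
          h4.trans (Real.exp_le_exp.mpr (h5.trans h6))
      _ ≤ _ := by
        have := le_max_left (1 : ℝ) (((5 * 2 ^ (7 * j0)).factorial : ℕ) : ℝ)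
        have h0 := (Real.exp_pos (ε * n)).le
        nlinarith

/-- subexponential growth -/
theorem VB_subexp (ε : ℝ) (hε : 0 < ε) : ∃ A : ℝ, 0 < A ∧ ∀ n : ℕ,
    ((VB n).ncard : ℝ) ≤ A * Real.exp (ε * n) := by
  obtain ⟨A1, hA1⟩ := RF_subexp (ε / 12) (by positivity)
  obtain ⟨A2, hA2⟩ := fact_sub (ε / 2) (by positivity)
  have hA10 : 0 ≤ A1 := by
    have := hA1 0
    simp only [Nat.cast_zero, mul_zero, Real.exp_zero, mul_one] at this
    exact (Nat.cast_nonneg _).trans this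
  have hA20 : 0 ≤ A2 := by
    obtain ⟨j, _, hj⟩ := hA2 0
    simp only [Nat.cast_zero, mul_zero, Real.exp_zero, mul_one] at hj
    exact (Nat.cast_nonneg _).trans hj
  refine ⟨A1 * A2 + 1, by positivity, fun n => ?_⟩
  obtain ⟨j, hj1, hj2⟩ := hA2 n
  have h1 : ((VB n).ncard : ℝ) ≤ ((RF (6 * n)).card : ℝ) *
      (((5 * 2 ^ (7 * j)).factorial : ℕ) : ℝ) := by exact_mod_cast (VB_bound n j hj1).2
  have h2 := hA1 (6 * n)
  have h3 : Real.exp (ε / 12 * ((6 * n : ℕ) : ℝ)) = Real.exp (ε / 2 * n) := by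
    congr 1; push_cast; ring
  rw [h3] at h2
  calc ((VB n).ncard : ℝ) ≤ _ := h1
    _ ≤ (A1 * Real.exp (ε / 2 * n)) * (A2 * Real.exp (ε / 2 * n)) :=
      mul_le_mul h2 hj2 (Nat.cast_nonneg _) (by positivity)
    _ = A1 * A2 * Real.exp (ε * n) := by
      rw [show ε * (n : ℝ) = ε / 2 * n + ε / 2 * n by ring, Real.exp_add]; ring
    _ ≤ _ := by
      have := (Real.exp_pos (ε * n)).le
      nlinarith

end Pool.Agent.H425R3.AG
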