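import Mathlib
import Pool.Agent.H425R3.AG1

set_option autoImplicit false

/-!
Short words for permutations of finite support, and many element orders.
-/

open Pool.Agent.Results.MP_e563b5_al.IntermediateRatio

namespace Pool.Agent.H425R3.AG

theorem isGen_one : IsGen 1 := Or.inr (Or.inl ⟨K4.e, kP_e.symm⟩)

theorem isGen_inv {s : Equiv.Perm ℕ} (h : IsGen s) : s⁻¹ = s := by
  rcases h with rfl | ⟨x, rfl⟩ | rfl
  · exact inv_eq_of_mul_eq_one_left aP_aP
  · exact inv_eq_of_mul_eq_one_left (by rw [kP_mul, K4.mul_self, kP_e])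
  · exact Equiv.swap_inv _ _

theorem V_gen {s : Equiv.Perm ℕ} (h : IsGen s) : V 1 s := by
  have := V.mul 0 1 s V.one h
  simpa using this

theorem V_mul {m n : ℕ} {g h : Equiv.Perm ℕ} (hg : V m g) (hh : V n h) : V (m + n) (g * h) := by
  induction hh with
  | one => simpa using hg
  | mul n h s _ hs ih =>
    rw [← add_assoc, ← mul_assoc]
    exact V.mul _ _ _ ih hs

theorem V_one (n : ℕ) : V n 1 := by
  induction n with
  | zero => exact V.one
  | succ n ih =>
    have := V.mul n 1 1 ih isGen_one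
    simpa using this

theorem V_mono {m n : ℕ} (h : m ≤ n) {g : Equiv.Perm ℕ} (hg : V m g) : V n g := by
  obtain ⟨k, rfl⟩ := Nat.exists_eq_add_of_le h
  have := V_mul hg (V_one k)
  simpa using this

theorem V_inv {n : ℕ} {g : Equiv.Perm ℕ} (hg : V n g) : V n g⁻¹ := by
  induction hg with
  | one => simpa using V.one
  | mul n g s _ hs ih =>
    rw [mul_inv_rev, isGen_inv hs, add_comm]
    exact V_mul (V_gen hs) ih

theorem U_V {n : ℕ} {g : Equiv.Perm ℕ} {O : Finset ℕ} (h : U n g O) : V n g := by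
  induction h with
  | one => exact V.one
  | kstep n g O x _ ih => exact V.mul _ _ _ ih (Or.inr (Or.inl ⟨x, rfl⟩))
  | astep n g O _ ih => exact V.mul _ _ _ ih (Or.inl rfl)

theorem lift_len {n : ℕ} {h : Equiv.Perm ℕ} {O : Finset ℕ} (hU : U n h O) :
    ∃ (m : ℕ) (gO : Equiv.Perm ℕ) (O' : Finset ℕ), m ≤ 3 * n ∧ U m (asm false h gO) O' := by
  induction hU with
  | one =>
    refine ⟨0, 1, {0}, le_refl _, ?_⟩
    have : asm false 1 1 = 1 := by
      have := kP_eq_asm K4.e
      rw [kP_e] at this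
      simpa [K4.th, K4.al, kP_e, ap] using this.symm
    rw [this]; exact U.one
  | kstep n h O x _ ih =>
    obtain ⟨m, gO, O', hm, h'⟩ := ih
    obtain ⟨y, hy⟩ : ∃ y, K4.th y = x := by
      cases x
      · exact ⟨K4.e, rfl⟩
      · exact ⟨K4.d, rfl⟩
      · exact ⟨K4.b, rfl⟩
      · exact ⟨K4.c, rfl⟩
    refine ⟨m + 1, gO * ap (K4.al y), O', by omega, ?_⟩
    rw [← hy, ← asm_false_mul_k]
    exact U.kstep _ _ _ y h'
  | astep n h O _ ih =>
    obtain ⟨m, gO, O', hm, h'⟩ := ih
    have : asm false (h * aP) (gO * kP K4.d) = asm false h gO * aP * kP K4.c * aP := by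
      rw [asm_mul_a]
      show _ = asm true h gO * _ * _
      rw [asm_true_mul_k, asm_mul_a]
      rfl
    have hU3 := U.astep _ _ _ (U.kstep _ _ _ K4.c (U.astep _ _ _ h'))
    rw [← this] at hU3
    exact ⟨m + 1 + 1 + 1, gO * kP K4.d, _, by omega, hU3⟩

theorem U_amul {n : ℕ} {g : Equiv.Perm ℕ} {O : Finset ℕ} (h : U n g O) :
    ∃ O', U (n + 1) (aP * g) O' := by
  induction h with
  | one => exact ⟨_, by simpa using U.astep 0 1 {0} U.one⟩
  | kstep n g O x _ ih =>
    obtain ⟨O', h'⟩ := ih
    exact ⟨_, by rw [← mul_assoc]; exact U.kstep _ _ _ x h'⟩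
  | astep n g O _ ih =>
    obtain ⟨O', h'⟩ := ih
    exact ⟨_, by rw [← mul_assoc]; exact U.astep _ _ _ h'⟩

theorem reach_len (k : ℕ) : ∀ y < 2 ^ k, ∃ (n : ℕ) (g : Equiv.Perm ℕ) (O : Finset ℕ),
    2 * n + 1 ≤ 3 ^ k ∧ U n g O ∧ g 0 = y := by
  induction k with
  | zero =>
    intro y hy
    have : y = 0 := by simpa using hy
    subst this
    exact ⟨0, 1, {0}, by norm_num, U.one, rfl⟩
  | succ k ih =>
    intro y hy
    have hy2 : y / 2 < 2 ^ k := by rw [pow_succ] at hy; omega
    obtain ⟨n, h, O, hn, hU, h0⟩ := ih (y / 2) hy2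
    obtain ⟨m, gO, O', hm, hU'⟩ := lift_len hU
    have h1 : (asm false h gO) 0 = 2 * (y / 2) := by
      have := asmF_false_even (⇑h) (⇑gO) 0
      rw [asm_apply]
      simp only [mul_zero] at this
      rw [this, h0]
    rcases Nat.even_or_odd' y with ⟨z, hz | hz⟩
    · refine ⟨m, _, O', ?_, hU', ?_⟩
      · rw [pow_succ]; omega
      · rw [h1]; omega
    · obtain ⟨O'', hU''⟩ := U_amul hU'
      refine ⟨m + 1, _, O'', ?_, hU'', ?_⟩
      · rw [pow_succ]; omega
      · rw [Equiv.Perm.mul_apply, h1, aP_apply, aN_even]; omega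

/-- chains of short transpositions -/
inductive Ch (L : ℕ) : ℕ → ℕ → ℕ → Prop
  | refl (x : ℕ) : Ch L 0 x x
  | step (m x y z : ℕ) : Ch L m x y → V L (Equiv.swap y z) → Ch L (m + 1) x z

theorem Ch_swap {L m x y : ℕ} (h : Ch L m x y) (hne : x ≠ y) : V (2 * m * L) (Equiv.swap x y) := by
  induction h with
  | refl => exact absurd rfl hne
  | step m x y z h hV ih =>
    by_cases hxy : x = y
    · subst hxy
      exact V_mono (by nlinarith) hV
    · by_cases hyz : y = z
      · subst hyz
        exact V_mono (by nlinarith) (ih hne)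
      · have h1 := ih hxy
        have h2 : Equiv.swap x z = Equiv.swap y z * Equiv.swap x y * Equiv.swap y z := by
          rw [Equiv.swap_mul_swap_mul_swap hxy hne, Equiv.swap_comm]
        rw [h2]
        exact V_mono (by nlinarith) (V_mul (V_mul hV h1) hV)

theorem U_Ch {n N : ℕ} {g : Equiv.Perm ℕ} {O : Finset ℕ} (h : U n g O) (hN : n ≤ N) :
    ∃ m ≤ n, Ch (2 * N + 1) m 0 (g 0) := by
  induction h with
  | one => exact ⟨0, le_refl _, Ch.refl 0⟩
  | kstep n g O x _ ih =>
    obtain ⟨m, hm, hC⟩ := ih (by omega)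
    refine ⟨m, by omega, ?_⟩
    rw [Equiv.Perm.mul_apply, kP_apply, klN_zero]
    exact hC
  | astep n g O hU ih =>
    obtain ⟨m, hm, hC⟩ := ih (by omega)
    refine ⟨m + 1, by omega, Ch.step _ _ _ _ hC ?_⟩
    rw [Equiv.Perm.mul_apply, aP_apply, aN_zero]
    have h1 : Equiv.swap (g 0) (g 1) = g * τ * g⁻¹ := by
      rw [τ, Equiv.mul_swap_eq_swap_mul, mul_assoc, mul_inv_cancel, mul_one]
    rw [h1]
    have hg := U_V hU
    have hτ : V 1 τ := V_gen (Or.inr (Or.inr rfl))
    exact V_mono (by omega) (V_mul (V_mul hg hτ) (V_inv hg))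

/-- bound for the length of a transposition of points below `2 ^ k` -/
def LL (k : ℕ) : ℕ := 3 * 9 ^ k

theorem swap_zero_len (k y : ℕ) (hy : y < 2 ^ k) (h0 : y ≠ 0) : V (9 ^ k) (Equiv.swap 0 y) := by
  obtain ⟨n, g, O, hn, hU, hg⟩ := reach_len k y hy
  obtain ⟨m, hm, hC⟩ := U_Ch hU (le_refl n)
  rw [hg] at hC
  refine V_mono ?_ (Ch_swap hC (Ne.symm h0))
  have h9 : 9 ^ k = 3 ^ k * 3 ^ k := by rw [← mul_pow]; norm_num
  rw [h9]
  calc 2 * m * (2 * n + 1) ≤ (2 * n + 1) * (2 * n + 1) := Nat.mul_le_mul_right _ (by omega)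
    _ ≤ 3 ^ k * 3 ^ k := Nat.mul_le_mul hn hn

theorem swap_len (k x y : ℕ) (hx : x < 2 ^ k) (hy : y < 2 ^ k) :
    V (LL k) (Equiv.swap x y) := by
  unfold LL
  by_cases hxy : x = y
  · subst hxy
    rw [Equiv.swap_self]
    exact V_one _
  · by_cases hx0 : x = 0
    · subst hx0
      exact V_mono (by omega) (swap_zero_len k y hy (Ne.symm hxy))
    · by_cases hy0 : y = 0
      · subst hy0
        rw [Equiv.swap_comm]
        exact V_mono (by omega) (swap_zero_len k x hx hx0)
      · have h1 := swap_zero_len k x hx hx0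
        have h2 := swap_zero_len k y hy hy0
        have h3 : Equiv.swap x y = Equiv.swap 0 x * Equiv.swap 0 y * Equiv.swap 0 x := by
          rw [Equiv.swap_comm 0 x, Equiv.swap_comm 0 y]
          have := Equiv.swap_mul_swap_mul_swap (x := y) (y := 0) (z := x) hy0 (Ne.symm hxy)
          rw [Equiv.swap_comm 0 x] at this
          exact this.symm
        rw [h3]
        exact V_mono (by omega) (V_mul (V_mul h1 h2) h1)

theorem formPerm_len (k : ℕ) (l : List ℕ) (hl : ∀ x ∈ l, x < 2 ^ k) :
    V (l.length * LL k) l.formPerm := by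
  induction l with
  | nil => exact V_one _
  | cons x l ih =>
    cases l with
    | nil => rw [List.formPerm_singleton]; exact V_one _
    | cons y l =>
      rw [List.formPerm_cons_cons]
      have h1 := swap_len k x y (hl x (by simp)) (hl y (by simp))
      have h2 := ih (fun z hz => hl z (List.mem_cons_of_mem _ hz))
      refine V_mono ?_ (V_mul h1 h2)
      simp only [List.length_cons]
      nlinarith

/-- the cycle number `p` -/
def cyc (M p : ℕ) : Equiv.Perm ℕ := (List.range' (M * p) p).formPerm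

theorem cyc_order (M p : ℕ) (hp : p.Prime) : orderOf (cyc M p) = p := by
  have : Fact p.Prime := ⟨hp⟩
  have hnd : (List.range' (M * p) p).Nodup := List.nodup_range'
  refine orderOf_eq_prime ?_ ?_
  · have := List.formPerm_pow_length_eq_one_of_nodup _ hnd
    rw [List.length_range'] at this
    exact this
  · unfold cyc
    rw [Ne, List.formPerm_eq_one_iff _ hnd, List.length_range']
    have := hp.two_le
    omega

theorem cyc_disjoint (M p q : ℕ) (hp : p.Prime) (hq : q.Prime) (hpM : p ≤ M) (hqM : q ≤ M)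
    (hne : p ≠ q) : (cyc M p).Disjoint (cyc M q) := by
  unfold cyc
  rw [List.formPerm_disjoint_iff List.nodup_range' List.nodup_range'
    (by rw [List.length_range']; exact hp.two_le) (by rw [List.length_range']; exact hq.two_le)]
  intro x hx hx'
  rw [List.mem_range'_1] at hx hx'
  rcases lt_or_gt_of_ne hne with h | h
  · have : M * (p + 1) ≤ M * q := Nat.mul_le_mul_left _ h
    rw [mul_add] at this
    omega
  · have : M * (q + 1) ≤ M * p := Nat.mul_le_mul_left _ h
    rw [mul_add] at this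
    omega

theorem prod_order (M : ℕ) (l : List ℕ) (hnd : l.Nodup) (hl : ∀ p ∈ l, p.Prime ∧ p ≤ M) :
    orderOf (l.map (cyc M)).prod = l.prod := by
  induction l with
  | nil => simp
  | cons p l ih =>
    rw [List.nodup_cons] at hnd
    have hp := hl p (by simp)
    have hl' : ∀ q ∈ l, q.Prime ∧ q ≤ M := fun q hq => hl q (List.mem_cons_of_mem _ hq)
    rw [List.map_cons, List.prod_cons, List.prod_cons, Equiv.Perm.Disjoint.orderOf, ih hnd.2 hl',
      cyc_order M p hp.1]
    · apply Nat.Coprime.lcm_eq_mul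
      apply Nat.Coprime.symm
      rw [Nat.coprime_list_prod_left_iff]
      intro q hq
      have hq' := hl' q hq
      rw [Nat.coprime_primes hq'.1 hp.1]
      rintro rfl
      exact hnd.1 hq
    · apply Equiv.Perm.disjoint_prod_right
      intro g hg
      rw [List.mem_map] at hg
      obtain ⟨q, hq, rfl⟩ := hg
      have hq' := hl' q hq
      exact cyc_disjoint M p q hp.1 hq'.1 hp.2 hq'.2 (by rintro rfl; exact hnd.1 hq)

theorem prod_len (M k : ℕ) (hk : M * M + M ≤ 2 ^ k) (l : List ℕ) (hl : ∀ p ∈ l, p ≤ M) :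
    V (l.length * (M * LL k)) (l.map (cyc M)).prod := by
  induction l with
  | nil => exact V_one _
  | cons p l ih =>
    have hp := hl p (by simp)
    have hl' : ∀ q ∈ l, q ≤ M := fun q hq => hl q (List.mem_cons_of_mem _ hq)
    rw [List.map_cons, List.prod_cons]
    have h1 : V (p * LL k) (cyc M p) := by
      have := formPerm_len k (List.range' (M * p) p) (by
        intro x hx
        rw [List.mem_range'_1] at hx
        have : M * p ≤ M * M := Nat.mul_le_mul_left _ hp
        omega)
      rw [List.length_range'] at this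
      exact this
    refine V_mono ?_ (V_mul h1 (ih hl'))
    rw [List.length_cons]
    have : p * LL k ≤ M * LL k := Nat.mul_le_mul_right _ hp
    nlinarith

/-- for every set of primes up to `M` an element whose order is their product -/
theorem exists_order (M k : ℕ) (hk : M * M + M ≤ 2 ^ k) (F : Finset ℕ)
    (hF : ∀ p ∈ F, p.Prime ∧ p ≤ M) :
    ∃ g, V (M * (M * LL k)) g ∧ orderOf g = ∏ p ∈ F, p := by
  refine ⟨(F.toList.map (cyc M)).prod, ?_, ?_⟩
  · refine V_mono (Nat.mul_le_mul_right _ ?_) (prod_len M k hk F.toList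
      (fun p hp => (hF p (Finset.mem_toList.mp hp)).2))
    rw [Finset.length_toList]
    have : F ⊆ Finset.Icc 1 M := by
      intro p hp
      rw [Finset.mem_Icc]
      exact ⟨(hF p hp).1.one_lt.le, (hF p hp).2⟩
    have := Finset.card_le_card this
    simpa using this
  · rw [prod_order M F.toList F.nodup_toList
      (fun p hp => hF p (Finset.mem_toList.mp hp))]
    rw [← Finset.prod_toList]

end Pool.Agent.H425R3.AG
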