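import Mathlib

set_option autoImplicit false

namespace Pool.Agent.H425R3

/-- restricted wreath product of the group of order two with `G` -/
@[ext] structure Wr (G : Type) where
  f : G →₀ ZMod 2
  g : G

namespace Wr

variable {G Q : Type} [Group G] [Group Q]

noncomputable instance : Mul (Wr G) :=
  ⟨fun a b => ⟨a.f + Finsupp.mapDomain (fun x => a.g * x) b.f, a.g * b.g⟩⟩
noncomputable instance : One (Wr G) := ⟨⟨0, 1⟩⟩
noncomputable instance : Inv (Wr G) :=
  ⟨fun a => ⟨Finsupp.mapDomain (fun x => a.g⁻¹ * x) a.f, a.g⁻¹⟩⟩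

@[simp] theorem mul_f (a b : Wr G) :
    (a * b).f = a.f + Finsupp.mapDomain (fun x => a.g * x) b.f := rfl
@[simp] theorem mul_g (a b : Wr G) : (a * b).g = a.g * b.g := rfl
@[simp] theorem one_f : (1 : Wr G).f = 0 := rfl
@[simp] theorem one_g : (1 : Wr G).g = 1 := rfl
@[simp] theorem inv_f (a : Wr G) : (a⁻¹).f = Finsupp.mapDomain (fun x => a.g⁻¹ * x) a.f := rfl
@[simp] theorem inv_g (a : Wr G) : (a⁻¹).g = a.g⁻¹ := rfl

omit [Group G] in
theorem add_self (f : G →₀ ZMod 2) : f + f = 0 := by
  ext x
  simp only [Finsupp.coe_add, Pi.add_apply, Finsupp.coe_zero, Pi.zero_apply]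
  exact CharTwo.add_self_eq_zero _

noncomputable instance : Group (Wr G) :=
  Group.ofLeftAxioms
    (by
      intro a b c
      apply Wr.ext
      · simp only [mul_f, mul_g, Finsupp.mapDomain_add, ← Finsupp.mapDomain_comp, add_assoc]
        congr 2
        congr 1
        funext x
        simp [mul_assoc]
      · simp [mul_assoc])
    (by
      intro a
      apply Wr.ext
      · simp only [mul_f, one_f, one_g, one_mul, zero_add]
        exact Finsupp.mapDomain_id
      · simp)
    (by
      intro a
      apply Wr.ext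
      · simp only [mul_f, inv_f, inv_g, one_f]
        exact add_self _
      · simp)

/-- functoriality -/
noncomputable def map (φ : G →* Q) : Wr G →* Wr Q where
  toFun a := ⟨Finsupp.mapDomain φ a.f, φ a.g⟩
  map_one' := by
    apply Wr.ext
    · simp [Finsupp.mapDomain_zero]
    · simp
  map_mul' a b := by
    apply Wr.ext
    · simp only [mul_f, Finsupp.mapDomain_add, ← Finsupp.mapDomain_comp]
      congr 2
      funext x
      simp
    · simp

@[simp] theorem map_f (φ : G →* Q) (a : Wr G) : (map φ a).f = Finsupp.mapDomain φ a.f := rfl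
@[simp] theorem map_g (φ : G →* Q) (a : Wr G) : (map φ a).g = φ a.g := rfl

/-- the projection -/
noncomputable def proj : Wr G →* G where
  toFun a := a.g
  map_one' := rfl
  map_mul' _ _ := rfl

@[simp] theorem proj_apply (a : Wr G) : proj a = a.g := rfl

/-- the inclusion of `G` -/
noncomputable def incl : G →* Wr G where
  toFun g := ⟨0, g⟩
  map_one' := rfl
  map_mul' a b := by
    apply Wr.ext
    · simp [Finsupp.mapDomain_zero]
    · simp

@[simp] theorem incl_f (g : G) : (incl g).f = 0 := rfl
@[simp] theorem incl_g (g : G) : (incl g).g = g := rfl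

instance [Finite Q] : Finite (Wr Q) := by
  have : Function.Injective (fun a : Wr Q => ((a.f : Q → ZMod 2), a.g)) := by
    intro a b h
    simp only [Prod.mk.injEq] at h
    exact Wr.ext (DFunLike.coe_injective h.1) h.2
  exact Finite.of_injective _ this

theorem sq_of_g (a : Wr G) (m : ℕ) (h : a.g ^ m = 1) : a ^ (2 * m) = 1 := by
  have h1 : (a ^ m).g = 1 := by
    have := map_pow (proj (G := G)) a m
    simp only [proj_apply] at this
    rw [this, h]
  rw [mul_comm, pow_mul, pow_two]
  apply Wr.ext
  · simp only [mul_f, h1, one_mul, one_f]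
    have : Finsupp.mapDomain (fun x : G => x) (a ^ m).f = (a ^ m).f := Finsupp.mapDomain_id
    rw [this]
    exact add_self _
  · simp [h1]

open Classical in
/-- generating set -/
noncomputable def gen (S : Finset G) : Finset (Wr G) :=
  insert ⟨Finsupp.single 1 1, 1⟩ (S.image incl)

theorem mem_gen (S : Finset G) (a : Wr G) :
    a ∈ gen S ↔ a = ⟨Finsupp.single 1 1, 1⟩ ∨ ∃ s ∈ S, incl s = a := by
  classical
  unfold gen
  simp

theorem closure_gen (S : Finset G) (hS : Subgroup.closure (S : Set G) = ⊤) :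
    Subgroup.closure (gen S : Set (Wr G)) = ⊤ := by
  have h1 : ∀ g : G, incl g ∈ Subgroup.closure (gen S : Set (Wr G)) := by
    intro g
    have hg : g ∈ Subgroup.closure (S : Set G) := by rw [hS]; trivial
    induction hg using Subgroup.closure_induction with
    | mem x hx =>
      exact Subgroup.subset_closure ((mem_gen S _).mpr (Or.inr ⟨x, hx, rfl⟩))
    | one => rw [map_one]; exact Subgroup.one_mem _
    | mul x y _ _ hx hy => rw [map_mul]; exact Subgroup.mul_mem _ hx hy
    | inv x _ hx => rw [map_inv]; exact Subgroup.inv_mem _ hx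
  have h2 : ∀ g : G, (⟨Finsupp.single g 1, 1⟩ : Wr G) ∈ Subgroup.closure (gen S : Set (Wr G)) := by
    intro g
    have h : (⟨Finsupp.single g 1, 1⟩ : Wr G) =
        incl g * ⟨Finsupp.single 1 1, 1⟩ * (incl g)⁻¹ := by
      apply Wr.ext
      · simp [Finsupp.mapDomain_zero, Finsupp.mapDomain_single]
      · simp
    rw [h]
    refine Subgroup.mul_mem _ (Subgroup.mul_mem _ (h1 g) ?_) (Subgroup.inv_mem _ (h1 g))
    exact Subgroup.subset_closure ((mem_gen S _).mpr (Or.inl rfl))
  have h3 : ∀ f : G →₀ ZMod 2, (⟨f, 1⟩ : Wr G) ∈ Subgroup.closure (gen S : Set (Wr G)) := by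
    intro f
    induction f using Finsupp.induction with
    | zero => exact Subgroup.one_mem _
    | single_add g b f _ hb hf =>
      have hb1 : b = 1 := by
        have : ∀ b : ZMod 2, b ≠ 0 → b = 1 := by decide
        exact this b hb
      subst hb1
      have h : (⟨Finsupp.single g 1 + f, 1⟩ : Wr G) =
          ⟨Finsupp.single g 1, 1⟩ * ⟨f, 1⟩ := by
        apply Wr.ext
        · simp only [mul_f, one_mul]
          have : Finsupp.mapDomain (fun x : G => x) f = f := Finsupp.mapDomain_id
          rw [this]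
        · simp
      rw [h]
      exact Subgroup.mul_mem _ (h2 g) hf
  rw [eq_top_iff]
  rintro ⟨f, g⟩ _
  have h : (⟨f, g⟩ : Wr G) = ⟨f, 1⟩ * incl g := by
    apply Wr.ext
    · simp [Finsupp.mapDomain_zero]
    · simp
  rw [h]
  exact Subgroup.mul_mem _ (h3 f) (h1 g)

/-- the ball -/
def ball {G : Type} [Group G] (S : Finset G) (n : ℕ) : Set G :=
  {g : G | ∃ l : List G, l.length ≤ n ∧ (∀ x ∈ l, x ∈ S ∨ x⁻¹ ∈ S) ∧ l.prod = g}

theorem ball_finite (S : Finset G) (n : ℕ) : (ball S n).Finite := by
  have hfin : Finite {x : G // x ∈ S ∨ x⁻¹ ∈ S} := by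
    have h1 : {x : G | x ∈ S}.Finite := S.finite_toSet
    have h2 : {x : G | x⁻¹ ∈ S}.Finite := h1.preimage inv_injective.injOn
    exact (h1.union h2).to_subtype
  have h : (ball S n) ⊆ (fun l : List {x : G // x ∈ S ∨ x⁻¹ ∈ S} => (l.map Subtype.val).prod) ''
      {l | l.length ≤ n} := by
    rintro g ⟨l, hl, hx, rfl⟩
    refine ⟨l.attach.map (fun a => ⟨a.1, hx a.1 a.2⟩), ?_, ?_⟩
    · simpa using hl
    · simp only [List.map_map]
      congr 1
      exact List.attach_map_subtype_val l
  exact (Set.Finite.image _ (List.finite_length_le _ n)).subset h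

/-- long paths without self-intersections -/
theorem exists_path [Infinite G] (S : Finset G) (hS : Subgroup.closure (S : Set G) = ⊤) (m : ℕ) :
    ∃ l : List G, l.length = m ∧ (∀ x ∈ l, x ∈ S ∨ x⁻¹ ∈ S) ∧
      ∀ i j, i < j → j ≤ m → (l.take i).prod ≠ (l.take j).prod := by
  classical
  obtain ⟨g, hg⟩ := (ball_finite S m).exists_notMem
  have hex : ∃ k, ∃ l : List G, l.length = k ∧ (∀ x ∈ l, x ∈ S ∨ x⁻¹ ∈ S) ∧ l.prod = g := by
    have hg' : g ∈ Subgroup.closure (S : Set G) := by rw [hS]; trivial
    rw [← Subgroup.mem_toSubmonoid, Subgroup.closure_toSubmonoid] at hg'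
    obtain ⟨l, hl, hp⟩ := Submonoid.exists_list_of_mem_closure hg'
    refine ⟨l.length, l, rfl, ?_, hp⟩
    intro x h
    rcases hl x h with h | h
    · left; exact h
    · right; exact h
  obtain ⟨l, hl, hx, hp⟩ := Nat.find_spec hex
  set k := Nat.find hex with hk
  have hkm : m < k := by
    by_contra hcon
    exact hg ⟨l, by omega, hx, hp⟩
  refine ⟨l.take m, by simp; omega, fun x h => hx x (List.mem_of_mem_take h), ?_⟩
  intro i j hij hjm heq
  rw [List.take_take, List.take_take, min_eq_left (by omega), min_eq_left (by omega)] at heq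
  have hlen : (l.take i ++ l.drop j).length < k := by
    simp; omega
  refine Nat.find_min hex hlen ⟨l.take i ++ l.drop j, rfl, ?_, ?_⟩
  · intro x h
    rcases List.mem_append.mp h with h | h
    · exact hx x (List.mem_of_mem_take h)
    · exact hx x (List.mem_of_mem_drop h)
  · rw [List.prod_append, heq, ← List.prod_append, List.take_append_drop, hp]

/-- switch the lamps along a path -/
noncomputable def wd : (ℕ → Bool) → List G → List (Wr G)
  | ε, [] => if ε 0 then [⟨Finsupp.single 1 1, 1⟩] else []
  | ε, s :: l => (if ε 0 then [⟨Finsupp.single 1 1, 1⟩] else []) ++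
      incl s :: wd (fun i => ε (i + 1)) l

theorem wd_length (ε : ℕ → Bool) (l : List G) : (wd ε l).length ≤ 2 * l.length + 1 := by
  induction l generalizing ε with
  | nil => unfold wd; split_ifs <;> simp
  | cons s l ih =>
    have := ih (fun i => ε (i + 1))
    unfold wd
    split_ifs <;> simp <;> omega

theorem wd_mem (S : Finset G) (ε : ℕ → Bool) (l : List G) (hl : ∀ x ∈ l, x ∈ S ∨ x⁻¹ ∈ S) :
    ∀ x ∈ wd ε l, x ∈ gen S ∨ x⁻¹ ∈ gen S := by
  induction l generalizing ε with
  | nil =>
    intro x hx
    unfold wd at hx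
    split_ifs at hx
    · simp only [List.mem_singleton] at hx
      left; rw [mem_gen]; left; exact hx
    · simp at hx
  | cons s l ih =>
    intro x hx
    unfold wd at hx
    rcases List.mem_append.mp hx with hx | hx
    · split_ifs at hx
      · simp only [List.mem_singleton] at hx
        left; rw [mem_gen]; left; exact hx
      · simp at hx
    · rcases List.mem_cons.mp hx with rfl | hx
      · rcases hl s List.mem_cons_self with h | h
        · left; rw [mem_gen]; right; exact ⟨s, h, rfl⟩
        · right; rw [mem_gen]; right; exact ⟨s⁻¹, h, map_inv incl s⟩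
      · exact ih _ (fun y hy => hl y (List.mem_cons_of_mem _ hy)) x hx

theorem wd_f (ε : ℕ → Bool) (l : List G) :
    (wd ε l).prod.f = ∑ i ∈ Finset.range (l.length + 1),
      (if ε i then Finsupp.single (l.take i).prod (1 : ZMod 2) else 0) := by
  induction l generalizing ε with
  | nil =>
    unfold wd
    split_ifs with h
    · simp [h]
    · simp [h]
  | cons s l ih =>
    rw [List.length_cons, Finset.sum_range_succ']
    have h1 : (wd ε (s :: l)).prod.f =
        (if ε 0 then Finsupp.single 1 (1 : ZMod 2) else 0) +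
          Finsupp.mapDomain (fun x => s * x) (wd (fun i => ε (i + 1)) l).prod.f := by
      rw [wd, List.prod_append, List.prod_cons]
      split_ifs with h
      · simp only [List.prod_singleton, mul_f, one_mul, incl_f, zero_add, incl_g]
        congr 1
        exact Finsupp.mapDomain_id
      · simp only [List.prod_nil, one_mul, mul_f, incl_f, zero_add, incl_g]
    rw [h1, ih, Finsupp.mapDomain_finsetSum, add_comm]
    congr 1
    apply Finset.sum_congr rfl
    intro i _
    split_ifs with h
    · rw [Finsupp.mapDomain_single, List.take_succ_cons, List.prod_cons]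
    · exact Finsupp.mapDomain_zero

theorem growth [Infinite G] (S : Finset G) (hS : Subgroup.closure (S : Set G) = ⊤) (n : ℕ) :
    (Real.sqrt 2) ^ n ≤ ((ball (gen S) n).ncard : ℝ) := by
  classical
  rcases Nat.eq_zero_or_pos n with rfl | hn
  · rw [pow_zero]
    have : 1 ≤ (ball (gen S) 0).ncard :=
      (Set.ncard_pos (ball_finite _ _)).mpr ⟨1, [], by simp, by simp, rfl⟩
    exact_mod_cast this
  · obtain ⟨l, hl, hx, hd⟩ := exists_path S hS ((n + 1) / 2 - 1)
    have hr : l.length + 1 = (n + 1) / 2 := by omega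
    let F : (Fin ((n + 1) / 2) → Bool) → Wr G := fun ε =>
      (wd (fun i => if h : i < (n + 1) / 2 then ε ⟨i, h⟩ else false) l).prod
    have hF : Function.Injective F := by
      intro ε ε' he
      funext j
      have key : ∀ ε : Fin ((n + 1) / 2) → Bool, (F ε).f (l.take j).prod =
          if ε j then 1 else 0 := by
        intro ε
        simp only [F]
        rw [wd_f, Finsupp.finsetSum_apply, Finset.sum_eq_single (j : ℕ)]
        · rw [dif_pos j.2]
          by_cases h : ε j
          · simp [h]
          · simp [h]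
        · intro i hi hij
          rw [Finset.mem_range] at hi
          by_cases hc : (if h : i < (n + 1) / 2 then ε ⟨i, h⟩ else false) = true
          · rw [if_pos hc, Finsupp.single_apply, if_neg]
            rcases lt_or_gt_of_ne hij with h1 | h1
            · exact hd i j h1 (by have := j.2; omega)
            · exact fun h2 => hd j i h1 (by omega) h2.symm
          · rw [if_neg hc]; rfl
        · intro h
          exfalso; apply h
          rw [Finset.mem_range]
          have := j.2
          omega
      have h1 := key ε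
      have h2 := key ε'
      rw [he, h2] at h1
      by_cases a : ε j <;> by_cases b : ε' j <;> simp_all
    have hmem : Set.range F ⊆ ball (gen S) n := by
      rintro _ ⟨ε, rfl⟩
      refine ⟨_, ?_, wd_mem S _ l hx, rfl⟩
      refine (wd_length _ _).trans ?_
      omega
    have hcard : 2 ^ ((n + 1) / 2) ≤ (ball (gen S) n).ncard := by
      have h1 := Set.ncard_le_ncard hmem (ball_finite _ _)
      rw [← Set.image_univ, Set.ncard_image_of_injective _ hF, Set.ncard_univ] at h1
      simpa using h1
    have h2 : (Real.sqrt 2) ^ n ≤ (2 : ℝ) ^ ((n + 1) / 2) := by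
      have h3 : (2 : ℝ) ^ ((n + 1) / 2) = (Real.sqrt 2) ^ (2 * ((n + 1) / 2)) := by
        rw [pow_mul, Real.sq_sqrt (by norm_num)]
      rw [h3]
      apply pow_le_pow_right₀
      · rw [Real.one_le_sqrt]; norm_num
      · omega
    refine h2.trans ?_
    exact_mod_cast hcard

theorem ball_proj (S : Finset G) (n : ℕ) (a : Wr G) (ha : a ∈ ball (gen S) n) :
    a.g ∈ ball S n := by
  obtain ⟨l, hl, hx, rfl⟩ := ha
  induction l generalizing n with
  | nil => exact ⟨[], by simp, by simp, by simp⟩
  | cons b l ih =>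
    cases n with
    | zero => simp at hl
    | succ n =>
      obtain ⟨l', hl', hx', he⟩ := ih n (by simpa using hl)
        (fun x hx' => hx x (List.mem_cons_of_mem _ hx'))
      have hb := hx b List.mem_cons_self
      have hb' : b.g = 1 ∨ (b.g ∈ S ∨ b.g⁻¹ ∈ S) := by
        rcases hb with hb | hb
        · rcases (mem_gen S b).mp hb with rfl | ⟨s, hs, rfl⟩
          · left; rfl
          · right; left; exact hs
        · rcases (mem_gen S b⁻¹).mp hb with h | ⟨s, hs, h⟩
          · left
            have : (b⁻¹).g = 1 := by rw [h]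
            simpa using this
          · right; right
            have : (b⁻¹).g = s := by rw [← h]; rfl
            rw [inv_g] at this
            rw [this]; exact hs
      rw [List.prod_cons, mul_g]
      rcases hb' with h1 | h1
      · refine ⟨l', by omega, hx', ?_⟩
        rw [h1, one_mul, he]
      · refine ⟨b.g :: l', by simp; omega, ?_, ?_⟩
        · intro x hx
          rcases List.mem_cons.mp hx with rfl | hx
          · exact h1
          · exact hx' x hx
        · rw [List.prod_cons, he]

/-- residual finiteness -/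
theorem rf (hG : ∀ g : G, g ≠ 1 → ∃ N : Subgroup G, N.Normal ∧ N.index ≠ 0 ∧ g ∉ N)
    (a : Wr G) (ha : a ≠ 1) : ∃ N : Subgroup (Wr G), N.Normal ∧ N.index ≠ 0 ∧ a ∉ N := by
  classical
  by_cases hg : a.g = 1
  · have hf : a.f ≠ 0 := by
      intro h
      exact ha (Wr.ext h hg)
    -- a normal subgroup separating the points of the support
    choose! N hN1 hN2 hN3 using hG
    let ι := {p : a.f.support × a.f.support // (p.1 : G) ≠ p.2}
    let M : Subgroup G := ⨅ p : ι, N ((p.1.1 : G)⁻¹ * p.1.2)
    have hne : ∀ p : ι, (p.1.1 : G)⁻¹ * p.1.2 ≠ 1 := by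
      intro p h
      exact p.2 (inv_mul_eq_one.mp h)
    have hMn : M.Normal := Subgroup.normal_iInf_normal (fun p => hN1 _ (hne p))
    have hMi : M.FiniteIndex := by
      have : ∀ p : ι, (N ((p.1.1 : G)⁻¹ * p.1.2)).FiniteIndex :=
        fun p => ⟨hN2 _ (hne p)⟩
      exact Subgroup.finiteIndex_iInf this
    have : Finite (G ⧸ M) := inferInstance
    let φ : Wr G →* Wr (G ⧸ M) := map (QuotientGroup.mk' M)
    refine ⟨φ.ker, inferInstance, ?_, ?_⟩
    · have : φ.ker.FiniteIndex := Subgroup.finiteIndex_ker φ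
      exact this.index_ne_zero
    · intro h
      rw [MonoidHom.mem_ker] at h
      have h1 : Finsupp.mapDomain (QuotientGroup.mk' M) a.f = 0 := by
        have := congrArg Wr.f h
        simpa [φ] using this
      have hinj : Set.InjOn (QuotientGroup.mk' M) (a.f.support : Set G) := by
        intro x hx y hy hxy
        by_contra hne'
        have h2 : x⁻¹ * y ∈ M := by
          have := (QuotientGroup.mk'_eq_mk' M (x := x) (y := y)).mp hxy
          obtain ⟨z, hz, h3⟩ := this
          rw [← h3]; simpa using hz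
        have h4 := (Subgroup.mem_iInf.mp h2) (⟨(⟨x, hx⟩, ⟨y, hy⟩), hne'⟩ : ι)
        exact hN3 _ (hne (⟨(⟨x, hx⟩, ⟨y, hy⟩), hne'⟩ : ι)) h4
      apply hf
      have h5 := Finsupp.mapDomain_injOn (M := ZMod 2) (a.f.support : Set G) hinj
      apply h5 (by simp) (by simp)
      rw [h1, Finsupp.mapDomain_zero]
  · obtain ⟨N, hN1, hN2, hN3⟩ := hG a.g hg
    refine ⟨N.comap proj, inferInstance, ?_, ?_⟩
    · rw [Subgroup.index_comap_of_surjective]
      · exact hN2
      · intro g; exact ⟨incl g, rfl⟩
    · exact hN3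

/-- the main reduction -/
theorem main (G : Type) [Group G] [Infinite G] (S : Finset G)
    (hS : Subgroup.closure (S : Set G) = ⊤) (hT : ∀ g : G, IsOfFinOrder g)
    (hRF : ∀ g : G, g ≠ 1 → ∃ N : Subgroup G, N.Normal ∧ N.index ≠ 0 ∧ g ∉ N)
    (hper : ∀ ε : ℝ, 0 < ε → ∃ N : ℕ, ∀ n : ℕ, N ≤ n → ∀ g ∈ ball S n,
      (orderOf g : ℝ) ≤ ε * n) :
    ∃ (G : Type) (_ : Group G) (S : Finset G),
      Infinite G ∧
      Subgroup.closure (S : Set G) = ⊤ ∧
      (∀ g : G, IsOfFinOrder g) ∧
      (∀ g : G, g ≠ 1 → ∃ N : Subgroup G, N.Normal ∧ N.index ≠ 0 ∧ g ∉ N) ∧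
      (∃ c : ℝ, 1 < c ∧ ∀ n : ℕ,
        c ^ n ≤ (({g : G | ∃ l : List G, l.length ≤ n ∧
          (∀ x ∈ l, x ∈ S ∨ x⁻¹ ∈ S) ∧ l.prod = g}).ncard : ℝ)) ∧
      (∀ ε : ℝ, 0 < ε → ∃ N : ℕ, ∀ n : ℕ, N ≤ n → ∀ g : G,
        (∃ l : List G, l.length ≤ n ∧ (∀ x ∈ l, x ∈ S ∨ x⁻¹ ∈ S) ∧ l.prod = g) →
        (orderOf g : ℝ) ≤ ε * n) := by
  have hdvd : ∀ a : Wr G, orderOf a ∣ 2 * orderOf a.g := fun a =>
    orderOf_dvd_of_pow_eq_one (sq_of_g a _ (pow_orderOf_eq_one _))
  refine ⟨Wr G, inferInstance, gen S, ?_, closure_gen S hS, ?_, rf hRF, ?_, ?_⟩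
  · exact Infinite.of_surjective (proj (G := G)) (fun g => ⟨incl g, rfl⟩)
  · intro a
    rw [← orderOf_pos_iff]
    have h1 := hdvd a
    have h2 : 0 < orderOf a.g := orderOf_pos_iff.mpr (hT _)
    exact Nat.pos_of_dvd_of_pos h1 (by omega)
  · refine ⟨Real.sqrt 2, ?_, growth S hS⟩
    rw [Real.lt_sqrt] <;> norm_num
  · intro ε hε
    obtain ⟨N, hN⟩ := hper (ε / 2) (by positivity)
    refine ⟨N, fun n hn a ha => ?_⟩
    have h1 := hN n hn a.g (ball_proj S n a ha)
    have h2 : orderOf a ≤ 2 * orderOf a.g :=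
      Nat.le_of_dvd (by have := orderOf_pos_iff.mpr (hT a.g); omega) (hdvd a)
    have h3 : (orderOf a : ℝ) ≤ 2 * (orderOf a.g : ℝ) := by exact_mod_cast h2
    linarith

end Wr

end Pool.Agent.H425R3
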