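import Mathlib
import Pool.Agent.H425R3.Wreath

set_option autoImplicit false

/-!
A self-similar torsion group of automorphisms of the regular rooted tree with vertex set the lists
over `A = (ZMod 2)^16`. Generators: the rooted `e_i` (translations of the first letter), and the
directed `c`, which acts below the first-level vertex `P j` as the generator number `j`; the
points `P j` are code words at mutual Hamming distance at least eight. All sections of an element
of length `n` have length at most `n/8 + 1`.
-/

namespace Pool.Agent.H425R3.Tr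

/-- labels of the first level -/
abbrev A := Fin 16 → ZMod 2
/-- labels of the generators -/
abbrev J := Option (Fin 16)

/-- one bit of the inner product -/
def bt (k : ℕ) (v x : Fin 16) : ZMod 2 := if (v.1.testBit k && x.1.testBit k) then 1 else 0

/-- the code -/
def P : J → A
  | none => fun _ => 1
  | some v => fun x => bt 0 v x + bt 1 v x + bt 2 v x + bt 3 v x

theorem P_dist : ∀ j j' : J, j ≠ j' → 8 ≤ hammingDist (P j) (P j') := by
  decide +kernel

theorem P_inj : Function.Injective P := by
  intro j j' h
  by_contra hne
  have := P_dist j j' hne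
  rw [h, hammingDist_self] at this
  omega

open Classical in
/-- the generator acting below the vertex `x` -/
noncomputable def nx (x : A) : Option J := if h : ∃ j, P j = x then some h.choose else none

theorem nx_P (j : J) : nx (P j) = some j := by
  have h : ∃ j', P j' = P j := ⟨j, rfl⟩
  unfold nx
  rw [dif_pos h]
  congr 1
  exact P_inj h.choose_spec

theorem nx_eq {x : A} {j : J} (h : nx x = some j) : P j = x := by
  unfold nx at h
  split_ifs at h with h1
  rw [← Option.some.inj h]
  exact h1.choose_spec

/-- the action of the generators -/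
noncomputable def act : List A → J → List A
  | [], _ => []
  | x :: w, some i => (x + Pi.single i 1) :: w
  | x :: w, none => x :: (match nx x with
      | none => w
      | some j => act w j)

theorem A_add_self (x : A) : x + x = 0 := by
  funext i
  exact CharTwo.add_self_eq_zero _

theorem act_act (w : List A) (j : J) : act (act w j) j = w := by
  induction w generalizing j with
  | nil => simp [act]
  | cons x w ih =>
    cases j with
    | some i =>
      simp only [act]
      rw [add_assoc, A_add_self, add_zero]
    | none =>
      simp only [act]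
      cases h : nx x with
      | none => rfl
      | some j => simp only [ih]

theorem act_length (w : List A) (j : J) : (act w j).length = w.length := by
  induction w generalizing j with
  | nil => simp [act]
  | cons x w ih =>
    cases j with
    | some i => simp [act]
    | none =>
      simp only [act, List.length_cons]
      cases h : nx x with
      | none => rfl
      | some j => simp only [ih]

/-- the generators -/
noncomputable def s (j : J) : Equiv.Perm (List A) where
  toFun w := act w j
  invFun w := act w j
  left_inv w := act_act w j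
  right_inv w := act_act w j

theorem s_apply (j : J) (w : List A) : s j w = act w j := rfl

theorem s_mul_self (j : J) : s j * s j = 1 := by
  ext1 w
  exact act_act w j

theorem s_inv (j : J) : (s j)⁻¹ = s j := inv_eq_of_mul_eq_one_left (s_mul_self j)

/-- the element given by a word -/
noncomputable def ρ (u : List J) : Equiv.Perm (List A) := (u.map s).prod

theorem ρ_nil : ρ [] = 1 := rfl
theorem ρ_cons (j : J) (u : List J) : ρ (j :: u) = s j * ρ u := by simp [ρ]
theorem ρ_append (u v : List J) : ρ (u ++ v) = ρ u * ρ v := by simp [ρ]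

/-- total translation -/
def sh : List J → A
  | [] => 0
  | some i :: u => sh u + Pi.single i 1
  | none :: u => sh u

/-- number of rooted letters -/
def ct : List J → ℕ
  | [] => 0
  | some _ :: u => ct u + 1
  | none :: u => ct u

theorem ct_le (u : List J) : ct u ≤ u.length := by
  induction u with
  | nil => simp [ct]
  | cons a u ih => cases a <;> simp [ct] <;> omega

theorem sh_append (u v : List J) : sh (u ++ v) = sh u + sh v := by
  induction u with
  | nil => simp [sh]
  | cons a u ih =>
    cases a with
    | none => simp [sh, ih]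
    | some i => simp only [List.cons_append, sh, ih]; abel

theorem dist_step (x y : A) (i : Fin 16) :
    hammingDist x (y + Pi.single i 1) ≤ hammingDist x y + 1 := by
  refine (hammingDist_triangle x y _).trans ?_
  have : hammingDist y (y + Pi.single i 1) ≤ 1 := by
    unfold hammingDist
    refine (Finset.card_le_card (t := {i}) ?_).trans (by simp)
    intro k hk
    rw [Finset.mem_filter] at hk
    rw [Finset.mem_singleton]
    by_contra hne
    apply hk.2
    simp [hne]
  omega

/-- the sections of the element given by a word -/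
theorem sec (u : List J) (x : A) :
    (∀ w, ρ u (x :: w) = (x + sh u) :: w) ∨
    ∃ (j : J) (v : List J), 8 * v.length + hammingDist (P j) (x + sh u) ≤ ct u ∧
      ((∀ w, ρ u (x :: w) = (x + sh u) :: ρ v w) ∨
       (∀ w, ρ u (x :: w) = (x + sh u) :: ρ (j :: v) w)) := by
  induction u with
  | nil => left; intro w; simp [ρ, sh]
  | cons a u ih =>
    cases a with
    | some i =>
      have hstep : ∀ (y : A) (w' : List A), s (some i) (y :: w') = (y + Pi.single i 1) :: w' :=
        fun y w' => rfl
      have hsh : x + sh (some i :: u) = x + sh u + Pi.single i 1 := by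
        simp only [sh, add_assoc]
      rcases ih with ih | ⟨j, v, hv, ih⟩
      · left
        intro w
        rw [ρ_cons, Equiv.Perm.mul_apply, ih w, hstep, hsh]
      · right
        refine ⟨j, v, ?_, ?_⟩
        · rw [hsh]
          have := dist_step (P j) (x + sh u) i
          simp only [ct]
          omega
        · rcases ih with ih | ih
          · left; intro w
            rw [ρ_cons, Equiv.Perm.mul_apply, ih w, hstep, hsh]
          · right; intro w
            rw [ρ_cons, Equiv.Perm.mul_apply, ih w, hstep, hsh]
    | none =>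
      have hsh : sh (none :: u) = sh u := rfl
      have hct : ct (none :: u) = ct u := rfl
      rw [hsh, hct]
      cases hnx : nx (x + sh u) with
      | none =>
        have hstep : ∀ (w' : List A), s none ((x + sh u) :: w') = (x + sh u) :: w' := by
          intro w'
          simp only [s_apply, act, hnx]
        rcases ih with ih | ⟨j, v, hv, ih⟩
        · left; intro w
          rw [ρ_cons, Equiv.Perm.mul_apply, ih w, hstep]
        · right
          refine ⟨j, v, hv, ?_⟩
          rcases ih with ih | ih
          · left; intro w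
            rw [ρ_cons, Equiv.Perm.mul_apply, ih w, hstep]
          · right; intro w
            rw [ρ_cons, Equiv.Perm.mul_apply, ih w, hstep]
      | some j' =>
        have hP := nx_eq hnx
        have hstep : ∀ (w' : List A), s none ((x + sh u) :: w') = (x + sh u) :: s j' w' := by
          intro w'
          simp only [s_apply, act, hnx]
        right
        rcases ih with ih | ⟨j, v, hv, ih⟩
        · refine ⟨j', [], ?_, ?_⟩
          · rw [hP, hammingDist_self]; simp
          · right; intro w
            rw [ρ_cons, Equiv.Perm.mul_apply, ih w, hstep, ρ_cons, ρ_nil, mul_one]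
        · by_cases hj : j = j'
          · subst hj
            refine ⟨j, v, hv, ?_⟩
            rcases ih with ih | ih
            · right; intro w
              rw [ρ_cons, Equiv.Perm.mul_apply, ih w, hstep, ρ_cons, Equiv.Perm.mul_apply]
            · left; intro w
              rw [ρ_cons, Equiv.Perm.mul_apply, ih w, hstep, ρ_cons, ← Equiv.Perm.mul_apply,
                ← mul_assoc, s_mul_self, one_mul]
          · have hd := P_dist j j' hj
            rw [hP] at hd
            rcases ih with ih | ih
            · refine ⟨j', v, ?_, ?_⟩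
              · rw [hP, hammingDist_self]; omega
              · right; intro w
                rw [ρ_cons, Equiv.Perm.mul_apply, ih w, hstep, ρ_cons, Equiv.Perm.mul_apply]
            · refine ⟨j', j :: v, ?_, ?_⟩
              · rw [hP, hammingDist_self, List.length_cons]; omega
              · right; intro w
                rw [ρ_cons, Equiv.Perm.mul_apply, ih w, hstep, ρ_cons j', Equiv.Perm.mul_apply]

theorem sec' (u : List J) (x : A) :
    ∃ v : List J, v.length ≤ u.length / 8 + 1 ∧ ∀ w, ρ u (x :: w) = (x + sh u) :: ρ v w := by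
  have hc := ct_le u
  rcases sec u x with h | ⟨j, v, hv, h | h⟩
  · exact ⟨[], by simp, fun w => by rw [h w]; rfl⟩
  · exact ⟨v, by omega, h⟩
  · exact ⟨j :: v, by rw [List.length_cons]; omega, h⟩

theorem ρ_nil_apply (u : List J) : ρ u [] = [] := by
  induction u with
  | nil => rfl
  | cons a u ih => rw [ρ_cons, Equiv.Perm.mul_apply, ih]; rfl

/-- exponent of two -/
def K (n : ℕ) : ℕ := if h : n < 2 then 1 else 1 + K (n / 4 + 1)
termination_by n
decreasing_by omega

theorem ρ_pow (n : ℕ) (u : List J) (hu : u.length ≤ n) : ρ u ^ (2 ^ K n) = 1 := by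
  induction n using Nat.strong_induction_on generalizing u with
  | _ n ih =>
    rw [K]
    split_ifs with hn
    · have h1 : u.length ≤ 1 := by omega
      rcases u with _ | ⟨j, _ | ⟨j', u⟩⟩
      · simp [ρ]
      · rw [ρ_cons, ρ_nil, mul_one, pow_one, pow_two, s_mul_self]
      · simp at h1
    · rw [pow_add, pow_one, pow_mul]
      have h2 : ρ u ^ 2 = ρ (u ++ u) := by rw [ρ_append, pow_two]
      rw [h2]
      ext1 l
      rw [Equiv.Perm.one_apply]
      cases l with
      | nil =>
        have : ∀ k : ℕ, (ρ (u ++ u) ^ k) [] = [] := by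
          intro k
          induction k with
          | zero => rfl
          | succ k ihk => rw [pow_succ', Equiv.Perm.mul_apply, ihk, ρ_nil_apply]
        exact this _
      | cons x w =>
        obtain ⟨v, hv, hsec⟩ := sec' (u ++ u) x
        have hx : x + sh (u ++ u) = x := by rw [sh_append, A_add_self, add_zero]
        rw [hx] at hsec
        have hk : ∀ k : ℕ, (ρ (u ++ u) ^ k) (x :: w) = x :: (ρ v ^ k) w := by
          intro k
          induction k with
          | zero => rfl
          | succ k ihk =>
            rw [pow_succ', Equiv.Perm.mul_apply, ihk, hsec, pow_succ', Equiv.Perm.mul_apply]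
        rw [hk, ih (n / 4 + 1) (by omega) v]
        · rfl
        · refine hv.trans ?_
          rw [List.length_append]
          omega

theorem K_bound (n : ℕ) (hn : 2 ≤ n) : 4 ^ K n + 32 ≤ 24 * n := by
  induction n using Nat.strong_induction_on with
  | _ n ih =>
    rw [K, dif_neg (by omega)]
    by_cases h4 : n < 4
    · have h1 : n / 4 + 1 = 1 := by omega
      rw [h1, K, dif_pos (by omega)]
      norm_num
      omega
    · have := ih (n / 4 + 1) (by omega) (by omega)
      rw [pow_add, pow_one]
      omega

/-- the group -/
abbrev G : Type := Subgroup.closure (Set.range s)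

/-- generators in the group -/
noncomputable def sG (j : J) : G := ⟨s j, Subgroup.subset_closure ⟨j, rfl⟩⟩

open Classical in
/-- generating set -/
noncomputable def S : Finset G := Finset.univ.image sG

theorem mem_S (g : G) : g ∈ S ↔ ∃ j, sG j = g := by
  classical
  simp [S]

theorem S_closure : Subgroup.closure (S : Set G) = ⊤ := by
  have : (S : Set G) = ((↑) : G → Equiv.Perm (List A)) ⁻¹' (Set.range s) := by
    ext g
    rw [Finset.mem_coe, mem_S]
    constructor
    · rintro ⟨j, rfl⟩; exact ⟨j, rfl⟩
    · rintro ⟨j, hj⟩; exact ⟨j, Subtype.ext hj⟩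
  rw [this]
  exact Subgroup.closure_closure_coe_preimage

theorem word_of_list (l : List G) (hl : ∀ x ∈ l, x ∈ S ∨ x⁻¹ ∈ S) :
    ∃ u : List J, u.length = l.length ∧ (l.prod : Equiv.Perm (List A)) = ρ u := by
  induction l with
  | nil => exact ⟨[], rfl, rfl⟩
  | cons g l ih =>
    obtain ⟨u, hu, he⟩ := ih (fun x hx => hl x (List.mem_cons_of_mem _ hx))
    have hg : ∃ j, (g : Equiv.Perm (List A)) = s j := by
      rcases hl g List.mem_cons_self with h | h
      · obtain ⟨j, hj⟩ := (mem_S _).mp h
        exact ⟨j, by rw [← hj]; rfl⟩
      · obtain ⟨j, hj⟩ := (mem_S _).mp h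
        refine ⟨j, ?_⟩
        have : (s j) = (g : Equiv.Perm (List A))⁻¹ := by
          have := congrArg (fun x : G => (x : Equiv.Perm (List A))) hj
          simpa [sG] using this
        rw [← s_inv j, this, inv_inv]
    obtain ⟨j, hj⟩ := hg
    refine ⟨j :: u, by simp [hu], ?_⟩
    rw [List.prod_cons, Subgroup.coe_mul, he, hj, ρ_cons]

theorem word_of_G (g : G) : ∃ u : List J, (g : Equiv.Perm (List A)) = ρ u := by
  have hg' : g ∈ Subgroup.closure (S : Set G) := by rw [S_closure]; trivial
  rw [← Subgroup.mem_toSubmonoid, Subgroup.closure_toSubmonoid] at hg'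
  obtain ⟨l, hl, hp⟩ := Submonoid.exists_list_of_mem_closure hg'
  obtain ⟨u, _, hu⟩ := word_of_list l (fun x h => by
    rcases hl x h with h | h
    · left; exact h
    · right; exact h)
  exact ⟨u, by rw [← hp, hu]⟩

theorem G_pow (g : G) (u : List J) (hu : (g : Equiv.Perm (List A)) = ρ u) (n : ℕ)
    (hn : u.length ≤ n) : g ^ (2 ^ K n) = 1 := by
  apply Subtype.ext
  rw [Subgroup.coe_pow, hu, ρ_pow n u hn]
  rfl

theorem G_torsion (g : G) : IsOfFinOrder g := by
  obtain ⟨u, hu⟩ := word_of_G g
  rw [isOfFinOrder_iff_pow_eq_one]
  exact ⟨_, by positivity, G_pow g u hu u.length le_rfl⟩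

theorem G_period (n : ℕ) (hn : 2 ≤ n) (g : G) (hg : g ∈ Wr.ball S n) :
    (orderOf g) ^ 2 ≤ 24 * n := by
  obtain ⟨l, hl, hx, rfl⟩ := hg
  obtain ⟨u, hu, he⟩ := word_of_list l hx
  have h1 := G_pow l.prod u he n (by omega)
  have h2 : orderOf l.prod ≤ 2 ^ K n :=
    Nat.le_of_dvd (by positivity) (orderOf_dvd_of_pow_eq_one h1)
  have h3 := K_bound n hn
  calc (orderOf l.prod) ^ 2 ≤ (2 ^ K n) ^ 2 := Nat.pow_le_pow_left h2 2
    _ = 4 ^ K n := by rw [← pow_mul, mul_comm, pow_mul]; norm_num
    _ ≤ 24 * n := by omega

theorem ρ_length (u : List J) (w : List A) : (ρ u w).length = w.length := by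
  induction u with
  | nil => rfl
  | cons a u ih => rw [ρ_cons, Equiv.Perm.mul_apply, s_apply, act_length, ih]

theorem G_length (g : G) (w : List A) : ((g : Equiv.Perm (List A)) w).length = w.length := by
  obtain ⟨u, hu⟩ := word_of_G g
  rw [hu, ρ_length]

/-- the action on a level -/
def lev (n : ℕ) : G →* Equiv.Perm {w : List A // w.length = n} where
  toFun g := (g : Equiv.Perm (List A)).subtypePerm (fun w => by rw [G_length])
  map_one' := by ext w; rfl
  map_mul' a b := by ext w; rfl

theorem G_rf (g : G) (hg : g ≠ 1) : ∃ N : Subgroup G, N.Normal ∧ N.index ≠ 0 ∧ g ∉ N := by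
  have h1 : (g : Equiv.Perm (List A)) ≠ 1 := fun h => hg (Subtype.ext h)
  obtain ⟨w, hw⟩ : ∃ w, (g : Equiv.Perm (List A)) w ≠ w := by
    by_contra hcon
    push Not at hcon
    exact h1 (Equiv.ext hcon)
  have hfin : Finite {v : List A // v.length = w.length} :=
    (List.finite_length_eq A w.length).to_subtype
  refine ⟨(lev w.length).ker, inferInstance, ?_, ?_⟩
  · have : (lev w.length).ker.FiniteIndex := Subgroup.finiteIndex_ker _
    exact this.index_ne_zero
  · intro h
    rw [MonoidHom.mem_ker] at h
    have := congrArg (fun p => p ⟨w, rfl⟩) h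
    apply hw
    have := congrArg Subtype.val this
    exact this

/-- translations of the first letter -/
theorem exists_transl (t : A) : ∃ τ : G, ∀ (y : A) (w : List A),
    (τ : Equiv.Perm (List A)) (y :: w) = (y + t) :: w := by
  have h : ∀ F : Finset (Fin 16), ∃ τ : G, ∀ (y : A) (w : List A),
      (τ : Equiv.Perm (List A)) (y :: w) = (y + ∑ i ∈ F, Pi.single i (t i)) :: w := by
    intro F
    classical
    induction F using Finset.induction_on with
    | empty => exact ⟨1, fun y w => by simp⟩
    | insert i F hi ih =>
      obtain ⟨τ, hτ⟩ := ih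
      have hti : t i = 0 ∨ t i = 1 := by
        have : ∀ b : ZMod 2, b = 0 ∨ b = 1 := by decide
        exact this _
      rcases hti with h0 | h1
      · refine ⟨τ, fun y w => ?_⟩
        rw [hτ, Finset.sum_insert hi, h0, Pi.single_zero, zero_add]
      · refine ⟨sG (some i) * τ, fun y w => ?_⟩
        rw [Subgroup.coe_mul, Equiv.Perm.mul_apply, hτ, Finset.sum_insert hi, h1]
        show act _ _ = _
        simp only [act]
        congr 1
        abel
  obtain ⟨τ, hτ⟩ := h Finset.univ
  refine ⟨τ, fun y w => ?_⟩
  rw [hτ, Finset.univ_sum_single]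

/-- self-replication -/
theorem fractal (x : A) (h : G) : ∃ g : G, ∀ w : List A,
    (g : Equiv.Perm (List A)) (x :: w) = x :: (h : Equiv.Perm (List A)) w := by
  have key : ∀ h : Equiv.Perm (List A), h ∈ Subgroup.closure (Set.range s) →
      ∃ g : G, ∀ w : List A, (g : Equiv.Perm (List A)) (x :: w) = x :: h w := by
    intro h hh
    induction hh using Subgroup.closure_induction with
    | mem a ha =>
      obtain ⟨j, rfl⟩ := ha
      obtain ⟨τ, hτ⟩ := exists_transl (x + P j)
      refine ⟨τ * sG none * τ, fun w => ?_⟩
      have e1 : x + (x + P j) = P j := by rw [← add_assoc, A_add_self, zero_add]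
      rw [Subgroup.coe_mul, Subgroup.coe_mul, Equiv.Perm.mul_apply, Equiv.Perm.mul_apply, hτ, e1]
      have e2 : (sG none : Equiv.Perm (List A)) (P j :: w) = P j :: s j w := by
        show act _ _ = _
        simp only [act, nx_P]
        rfl
      rw [e2, hτ]
      congr 1
      rw [add_comm x, ← add_assoc, A_add_self, zero_add]
    | one => exact ⟨1, fun w => rfl⟩
    | mul a b _ _ iha ihb =>
      obtain ⟨g1, h1⟩ := iha
      obtain ⟨g2, h2⟩ := ihb
      refine ⟨g1 * g2, fun w => ?_⟩
      rw [Subgroup.coe_mul, Equiv.Perm.mul_apply, h2, h1]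
      rfl
    | inv a _ iha =>
      obtain ⟨g1, h1⟩ := iha
      refine ⟨g1⁻¹, fun w => ?_⟩
      rw [Subgroup.coe_inv, Equiv.Perm.inv_eq_iff_eq, h1]
      congr 1
      simp
  exact key h h.2

instance G_infinite : Infinite G := by
  by_contra hcon
  have hfin : Finite G := not_infinite_iff_finite.mp hcon
  choose Φ hΦ using fractal 0
  have hinj : Function.Injective Φ := by
    intro a b hab
    apply Subtype.ext
    ext1 w
    have h1 := hΦ a w
    have h2 := hΦ b w
    rw [hab, h2] at h1
    exact (List.cons.inj h1).2.symm
  have hsurj := Finite.surjective_of_injective hinj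
  obtain ⟨h, hh⟩ := hsurj (sG (some 0))
  have h1 := hΦ h []
  rw [hh] at h1
  have h2 : (sG (some 0) : Equiv.Perm (List A)) ((0 : A) :: []) =
      ((0 : A) + Pi.single 0 1) :: [] := rfl
  rw [h2] at h1
  have h3 := (List.cons.inj h1).1
  have h4 := congrFun h3 0
  simp at h4

theorem main : ∃ (G : Type) (_ : Group G) (S : Finset G),
      Infinite G ∧
      Subgroup.closure (S : Set G) = ⊤ ∧
      (∀ g : G, IsOfFinOrder g) ∧
      (∀ g : G, g ≠ 1 → ∃ N : Subgroup G, N.Normal ∧ N.index ≠ 0 ∧ g ∉ N) ∧
      (∃ c : ℝ, 1 < c ∧ ∀ n : ℕ,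
        c ^ n ≤ (({g : G | ∃ l : List G, l.length ≤ n ∧
          (∀ x ∈ l, x ∈ S ∨ x⁻¹ ∈ S) ∧ l.prod = g}).ncard : ℝ)) ∧
      (∀ ε : ℝ, 0 < ε → ∃ N : ℕ, ∀ n : ℕ, N ≤ n → ∀ g : G,
        (∃ l : List G, l.length ≤ n ∧ (∀ x ∈ l, x ∈ S ∨ x⁻¹ ∈ S) ∧ l.prod = g) →
        (orderOf g : ℝ) ≤ ε * n) := by
  refine Wr.main G S S_closure G_torsion G_rf ?_
  intro ε hε
  obtain ⟨N, hN⟩ := exists_nat_ge (24 / ε ^ 2)
  refine ⟨max N 2, fun n hn g hg => ?_⟩
  have h1 := G_period n ((le_max_right _ _).trans hn) g hg
  have h2 : ((orderOf g : ℝ)) ^ 2 ≤ 24 * n := by exact_mod_cast h1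
  have h3 : (N : ℝ) ≤ n := by exact_mod_cast (le_max_left _ _).trans hn
  have h4 : 24 ≤ ε ^ 2 * n := by
    have := hN.trans h3
    rw [div_le_iff₀ (by positivity)] at this
    linarith
  have hn0 : (0 : ℝ) ≤ n := Nat.cast_nonneg n
  have h5 : ((orderOf g : ℝ)) ^ 2 ≤ (ε * n) ^ 2 := by
    calc ((orderOf g : ℝ)) ^ 2 ≤ 24 * n := h2
      _ ≤ (ε ^ 2 * n) * n := mul_le_mul_of_nonneg_right h4 hn0
      _ = (ε * n) ^ 2 := by ring
  exact (pow_le_pow_iff_left₀ (by positivity) (by positivity) two_ne_zero).mp h5

end Pool.Agent.H425R3.Tr
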